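import Mathlib

set_option autoImplicit false

open Finset

namespace Pool.Agent.Df9bac

/-- points of level `m` -/
def isD (m : ℕ) (t : ℝ) : Prop := ∃ i : ℕ, t = (2 * i + 1) / 2 ^ (m ^ 2 + 1)

/-- level at least `n` -/
def hasLev (n : ℕ) (t : ℝ) : Prop := ∃ m, n ≤ m ∧ isD m t

/-- level less than `n` -/
def lowLev (n : ℕ) (t : ℝ) : Prop := ∃ m, m < n ∧ isD m t

lemma isD_unique_aux {m m' : ℕ} {t : ℝ} (h : isD m t) (h' : isD m' t) : ¬ m < m' := by
  intro hlt
  obtain ⟨i, hi⟩ := h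
  obtain ⟨j, hj⟩ := h'
  have hsq : m ^ 2 < m' ^ 2 := by nlinarith
  obtain ⟨d, hd⟩ : ∃ d, m' ^ 2 = m ^ 2 + 1 + d := ⟨m' ^ 2 - (m ^ 2 + 1), by omega⟩
  rw [hi] at hj
  have h1 : (0 : ℝ) < 2 ^ (m ^ 2 + 1) := by positivity
  have h2 : (0 : ℝ) < 2 ^ (m' ^ 2 + 1) := by positivity
  rw [div_eq_div_iff h1.ne' h2.ne', hd] at hj
  have h3 : (2 * (i : ℝ) + 1) * 2 ^ (d + 1) = 2 * j + 1 := by
    have e : (2 : ℝ) ^ (m ^ 2 + 1 + d + 1) = 2 ^ (m ^ 2 + 1) * 2 ^ (d + 1) := by
      rw [← pow_add]; congr 1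
    rw [e] at hj
    have : (2 ^ (m ^ 2 + 1) : ℝ) * ((2 * (i : ℝ) + 1) * 2 ^ (d + 1)) = 2 ^ (m ^ 2 + 1) * (2 * j + 1) := by
      linarith
    exact mul_left_cancel₀ h1.ne' this
  have h4 : (2 * i + 1) * 2 ^ (d + 1) = 2 * j + 1 := by exact_mod_cast h3
  rw [pow_succ] at h4
  have h5 : ((2 * i + 1) * (2 ^ d * 2)) % 2 = 0 := by
    rw [← mul_assoc]; exact Nat.mul_mod_left _ _
  omega

lemma isD_unique {m m' : ℕ} {t : ℝ} (h : isD m t) (h' : isD m' t) : m = m' := by
  have h1 := isD_unique_aux h h'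
  have h2 := isD_unique_aux h' h
  omega

/-- level points are interior to the cells of coarser levels -/
lemma isD_not_grid {m n : ℕ} {t : ℝ} (h : isD m t) (hn : n ≤ m) (Q : ℕ) : t * 2 ^ (n ^ 2) ≠ Q := by
  intro hQ
  obtain ⟨i, hi⟩ := h
  have hsq : n ^ 2 ≤ m ^ 2 := Nat.pow_le_pow_left hn 2
  obtain ⟨d, hd⟩ : ∃ d, m ^ 2 = n ^ 2 + d := ⟨m ^ 2 - n ^ 2, by omega⟩
  have h1 : (0 : ℝ) < 2 ^ (m ^ 2 + 1) := by positivity
  have h0 : (0 : ℝ) < 2 ^ (n ^ 2) := by positivity
  rw [hi, div_mul_eq_mul_div, div_eq_iff h1.ne', hd] at hQ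
  have h3 : (2 * (i : ℝ) + 1) = Q * 2 ^ (d + 1) := by
    have e : (2 : ℝ) ^ (n ^ 2 + d + 1) = 2 ^ (d + 1) * 2 ^ (n ^ 2) := by
      rw [← pow_add]; congr 1; ring
    rw [e, ← mul_assoc] at hQ
    exact mul_right_cancel₀ h0.ne' hQ
  have h4 : 2 * i + 1 = Q * 2 ^ (d + 1) := by exact_mod_cast h3
  rw [pow_succ, ← mul_assoc] at h4
  have h5 : (Q * 2 ^ d * 2) % 2 = 0 := Nat.mul_mod_left _ _
  omega

/-- the tagged partition -/
structure TP (N : ℕ) (x t : ℕ → ℝ) : Prop where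
  x0 : x 0 = 0
  x1 : x N = 1
  lt : ∀ i, i < N → x i < x (i + 1)
  tag : ∀ i, i < N → x i ≤ t i ∧ t i ≤ x (i + 1)

variable {N : ℕ} {x t : ℕ → ℝ}

lemma TP.mono (h : TP N x t) : ∀ j, j ≤ N → ∀ i, i ≤ j → x i ≤ x j := by
  intro j
  induction j with
  | zero => intro _ i hi; have : i = 0 := by omega
            rw [this]
  | succ j ih =>
    intro hj i hi
    rcases Nat.lt_or_ge i (j + 1) with h1 | h1
    · exact (ih (by omega) i (by omega)).trans (h.lt j (by omega)).le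
    · have : i = j + 1 := by omega
      rw [this]

lemma TP.nonneg (h : TP N x t) (i : ℕ) (hi : i ≤ N) : 0 ≤ x i := by
  have := h.mono i hi 0 (by omega)
  rwa [h.x0] at this

lemma TP.le_one (h : TP N x t) (i : ℕ) (hi : i ≤ N) : x i ≤ 1 := by
  have := h.mono N le_rfl i hi
  rwa [h.x1] at this

lemma TP.sum_one (h : TP N x t) : ∑ i ∈ range N, (x (i + 1) - x i) = 1 := by
  rw [sum_range_sub, h.x0, h.x1]; ring

/-- a point is the tag of at most two intervals -/
lemma TP.two (h : TP N x t) {i j : ℕ} (hij : i < j) (hj : j < N) (he : t i = t j) : j = i + 1 := by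
  by_contra hne
  have h1 : i + 2 ≤ j := by omega
  have h2 := (h.tag i (by omega)).2
  have h3 := (h.tag j hj).1
  have h4 : x (i + 1) < x (i + 1 + 1) := h.lt (i + 1) (by omega)
  have h5 : x (i + 1 + 1) ≤ x j := h.mono j hj.le _ (by omega)
  linarith

open Classical in
lemma TP.card_low (h : TP N x t) (n : ℕ) :
    ((range N).filter fun i => lowLev (n + 1) (t i)).card ≤ 2 * (2 ^ (n ^ 2 + 1) + 1) := by
  set s := (range N).filter fun i => lowLev (n + 1) (t i) with hs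
  set φ : ℕ → ℕ := fun i => ⌊t i * 2 ^ (n ^ 2 + 1)⌋₊ with hφ
  have hval : ∀ i ∈ s, t i * 2 ^ (n ^ 2 + 1) = φ i := by
    intro i hi
    obtain ⟨m, hm, k, hk⟩ := (mem_filter.mp hi).2
    have hsq : m ^ 2 ≤ n ^ 2 := Nat.pow_le_pow_left (by omega) 2
    obtain ⟨d, hd⟩ : ∃ d, n ^ 2 = m ^ 2 + d := ⟨n ^ 2 - m ^ 2, by omega⟩
    have e : t i * 2 ^ (n ^ 2 + 1) = (((2 * k + 1) * 2 ^ d : ℕ) : ℝ) := by
      rw [hk, hd]
      have : (2 : ℝ) ^ (m ^ 2 + d + 1) = 2 ^ (m ^ 2 + 1) * 2 ^ d := by rw [← pow_add]; congr 1; ring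
      rw [this]
      push_cast
      field_simp
    simp only [hφ]
    rw [e, Nat.floor_natCast]
  have hmem : ∀ i ∈ s, i < N := fun i hi => mem_range.mp (mem_filter.mp hi).1
  have h1 : s.card ≤ 2 * (s.image φ).card := by
    refine card_le_mul_card_image s 2 fun a _ => ?_
    rcases (s.filter fun i => φ i = a).eq_empty_or_nonempty with he | hne
    · rw [he]; simp
    · set m := (s.filter fun i => φ i = a).min' hne with hm
      have hmm := min'_mem _ hne
      rw [← hm, mem_filter] at hmm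
      have hsub : (s.filter fun i => φ i = a) ⊆ {m, m + 1} := by
        intro k hk
        have hle : m ≤ k := min'_le _ _ hk
        rw [mem_filter] at hk
        rcases Nat.eq_or_lt_of_le hle with h2 | h2
        · simp [h2]
        · have he : t m = t k := by
            have e1 := hval m hmm.1
            have e2 := hval k hk.1
            rw [hmm.2] at e1
            rw [hk.2] at e2
            have h3 : (0 : ℝ) < 2 ^ (n ^ 2 + 1) := by positivity
            exact mul_right_cancel₀ h3.ne' (e1.trans e2.symm)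
          have := h.two h2 (hmem k hk.1) he
          simp [this]
      exact (card_le_card hsub).trans card_le_two
  have h2 : (s.image φ).card ≤ 2 ^ (n ^ 2 + 1) + 1 := by
    have : s.image φ ⊆ range (2 ^ (n ^ 2 + 1) + 1) := by
      intro a ha
      obtain ⟨i, hi, rfl⟩ := mem_image.mp ha
      rw [mem_range]
      have h3 : ((φ i : ℕ) : ℝ) ≤ ((2 ^ (n ^ 2 + 1) : ℕ) : ℝ) := by
        rw [← hval i hi]
        push_cast
        have h4 : t i ≤ 1 := ((h.tag i (hmem i hi)).2).trans (h.le_one _ (hmem i hi))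
        have h5 : (0 : ℝ) < 2 ^ (n ^ 2 + 1) := by positivity
        nlinarith
      have : φ i ≤ 2 ^ (n ^ 2 + 1) := by exact_mod_cast h3
      omega
    simpa using card_le_card this
  omega

open Classical in
/-- lower bound for the number of cells containing no fine tag -/
lemma TP.card_cells (h : TP N x t) (n : ℕ) :
    (2 : ℝ) ^ (n ^ 2) * (∑ i ∈ (range N).filter fun i => lowLev n (t i), (x (i + 1) - x i)) -
      2 * ((range N).filter fun i => lowLev n (t i)).card ≤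
    ((range (2 ^ (n ^ 2))).filter fun Q => ∀ i, i < N → hasLev n (t i) → ⌊t i * 2 ^ (n ^ 2)⌋₊ ≠ Q).card := by
  set s := (range N).filter fun i => lowLev n (t i) with hs
  set S := (range (2 ^ (n ^ 2))).filter fun Q => ∀ i, i < N → hasLev n (t i) → ⌊t i * 2 ^ (n ^ 2)⌋₊ ≠ Q with hS
  have hmem : ∀ i ∈ s, i < N := fun i hi => mem_range.mp (mem_filter.mp hi).1
  have hM : (0 : ℝ) < 2 ^ (n ^ 2) := by positivity
  set C : ℕ → Finset ℕ := fun i => Ico ⌈x i * 2 ^ (n ^ 2)⌉₊ ⌊x (i + 1) * 2 ^ (n ^ 2)⌋₊ with hC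
  have hCmem : ∀ i, i < N → ∀ Q ∈ C i, x i * 2 ^ (n ^ 2) ≤ Q ∧ (Q : ℝ) + 1 ≤ x (i + 1) * 2 ^ (n ^ 2) := by
    intro i hi Q hQ
    simp only [hC, mem_Ico] at hQ
    refine ⟨Nat.ceil_le.mp hQ.1, ?_⟩
    have h1 : Q + 1 ≤ ⌊x (i + 1) * 2 ^ (n ^ 2)⌋₊ := hQ.2
    have h2 : 0 ≤ x (i + 1) * 2 ^ (n ^ 2) := mul_nonneg (h.nonneg _ hi) hM.le
    have h3 := (Nat.le_floor_iff h2).mp h1
    push_cast at h3
    exact h3
  have hdisj : ∀ i ∈ s, ∀ j ∈ s, i ≠ j → Disjoint (C i) (C j) := by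
    have key : ∀ i j, i < j → j < N → Disjoint (C i) (C j) := by
      intro i j hij hj
      rw [disjoint_left]
      intro Q hQ hQ'
      have h1 := (hCmem i (by omega) Q hQ).2
      have h2 := (hCmem j hj Q hQ').1
      have h3 : x (i + 1) ≤ x j := h.mono j hj.le _ (by omega)
      have h4 : x (i + 1) * 2 ^ (n ^ 2) ≤ x j * 2 ^ (n ^ 2) := mul_le_mul_of_nonneg_right h3 hM.le
      linarith
    intro i hi j hj hne
    rcases lt_or_gt_of_ne hne with h1 | h1
    · exact key i j h1 (hmem j hj)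
    · exact (key j i h1 (hmem i hi)).symm
  have hsub : s.biUnion C ⊆ S := by
    intro Q hQ
    obtain ⟨i, hi, hQi⟩ := mem_biUnion.mp hQ
    have hiN := hmem i hi
    obtain ⟨h1, h2⟩ := hCmem i hiN Q hQi
    rw [hS, mem_filter, mem_range]
    constructor
    · have h3 : x (i + 1) * 2 ^ (n ^ 2) ≤ 1 * 2 ^ (n ^ 2) :=
        mul_le_mul_of_nonneg_right (h.le_one _ hiN) hM.le
      have h4 : ((Q + 1 : ℕ) : ℝ) ≤ ((2 ^ (n ^ 2) : ℕ) : ℝ) := by push_cast; linarith
      have : Q + 1 ≤ 2 ^ (n ^ 2) := by exact_mod_cast h4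
      omega
    · intro j hj hlev hfl
      obtain ⟨m, hm, hD⟩ := hlev
      have htj0 : 0 ≤ t j * 2 ^ (n ^ 2) :=
        mul_nonneg ((h.nonneg j hj.le).trans (h.tag j hj).1) hM.le
      have h5 : (Q : ℝ) ≤ t j * 2 ^ (n ^ 2) := by rw [← hfl]; exact Nat.floor_le htj0
      have h6 : t j * 2 ^ (n ^ 2) < Q + 1 := by rw [← hfl]; exact Nat.lt_floor_add_one _
      have h7 : (Q : ℝ) < t j * 2 ^ (n ^ 2) := lt_of_le_of_ne h5 (isD_not_grid hD hm Q).symm
      have h8 : x i < t j := by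
        by_contra hc
        push Not at hc
        have := mul_le_mul_of_nonneg_right hc hM.le
        linarith
      have h9 : t j < x (i + 1) := by
        by_contra hc
        push Not at hc
        have := mul_le_mul_of_nonneg_right hc hM.le
        linarith
      have hji : j = i := by
        rcases lt_trichotomy j i with h10 | h10 | h10
        · have h11 := (h.tag j hj).2
          have h12 : x (j + 1) ≤ x i := h.mono i hiN.le _ (by omega)
          linarith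
        · exact h10
        · have h11 := (h.tag j hj).1
          have h12 : x (i + 1) ≤ x j := h.mono j hj.le _ (by omega)
          linarith
      rw [hji] at hD
      obtain ⟨m', hm', hD'⟩ := (mem_filter.mp hi).2
      have := isD_unique hD hD'
      omega
  have hcard : ∀ i ∈ s, (2 : ℝ) ^ (n ^ 2) * (x (i + 1) - x i) - 2 ≤ ((C i).card : ℝ) := by
    intro i hi
    simp only [hC, Nat.card_Ico]
    have h1 : (⌊x (i + 1) * 2 ^ (n ^ 2)⌋₊ : ℝ) - ⌈x i * 2 ^ (n ^ 2)⌉₊ ≤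
        ((⌊x (i + 1) * 2 ^ (n ^ 2)⌋₊ - ⌈x i * 2 ^ (n ^ 2)⌉₊ : ℕ) : ℝ) := by
      have : ⌊x (i + 1) * 2 ^ (n ^ 2)⌋₊ ≤ (⌊x (i + 1) * 2 ^ (n ^ 2)⌋₊ - ⌈x i * 2 ^ (n ^ 2)⌉₊) + ⌈x i * 2 ^ (n ^ 2)⌉₊ := by
        omega
      have h2 : (⌊x (i + 1) * 2 ^ (n ^ 2)⌋₊ : ℝ) ≤
          ((⌊x (i + 1) * 2 ^ (n ^ 2)⌋₊ - ⌈x i * 2 ^ (n ^ 2)⌉₊ : ℕ) : ℝ) + (⌈x i * 2 ^ (n ^ 2)⌉₊ : ℝ) := by
        exact_mod_cast this
      linarith
    have h2 := Nat.lt_floor_add_one (x (i + 1) * 2 ^ (n ^ 2))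
    have h3 : (⌈x i * 2 ^ (n ^ 2)⌉₊ : ℝ) < x i * 2 ^ (n ^ 2) + 1 :=
      Nat.ceil_lt_add_one (mul_nonneg (h.nonneg _ (hmem i hi).le) hM.le)
    linarith
  have h1 : (((s.biUnion C).card : ℕ) : ℝ) ≤ (S.card : ℝ) := by exact_mod_cast card_le_card hsub
  rw [card_biUnion hdisj] at h1
  push_cast at h1
  refine le_trans ?_ h1
  have h2 := sum_le_sum hcard
  rw [sum_sub_distrib, sum_const, nsmul_eq_mul, ← mul_sum] at h2
  linarith

open Classical in
/-- no mixtures -/
theorem TP.core (h : TP N x t) (hmesh : ∀ i, i < N → x (i + 1) - x i < 1 / 2 ^ 24)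
    (hv : ∑ i ∈ range N, (x (i + 1) - x i) * (if hasLev 0 (t i) then 0 else 1) ≤ 1 / 200)
    (hu : |∑ i ∈ range N, (x (i + 1) - x i) * (if ∃ m, Even m ∧ isD m (t i) then 1 else 0) - 1 / 2| ≤ 1 / 200)
    (ht : ∀ (n : ℕ) (S : Finset ℕ), S ⊆ range (2 ^ (n ^ 2)) →
      |∑ i ∈ range N, (x (i + 1) - x i) * (if hasLev n (t i) then
        ((if ⌊t i * 2 ^ (n ^ 2)⌋₊ ∈ S then 1 else 0) - (S.card : ℝ) / 2 ^ (n ^ 2)) else 0)| ≤ 1 / 200) :
    False := by
  set w : ℕ → ℝ := fun i => x (i + 1) - x i with hw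
  have hw0 : ∀ i ∈ range N, 0 < w i := fun i hi => sub_pos.mpr (h.lt i (mem_range.mp hi))
  set c : ℕ → ℝ := fun n => ∑ i ∈ range N, if hasLev n (t i) then w i else 0 with hc
  have hlow : ∀ n, (∑ i ∈ (range N).filter fun i => lowLev n (t i), w i) ≥ 1 - c n - 1 / 200 := by
    intro n
    have h1 : (1 : ℝ) = ∑ i ∈ range N, w i := h.sum_one.symm
    have h2 : ∑ i ∈ range N, w i ≤ (∑ i ∈ range N, if lowLev n (t i) then w i else 0) + c n +
        ∑ i ∈ range N, w i * (if hasLev 0 (t i) then 0 else 1) := by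
      rw [hc, ← sum_add_distrib, ← sum_add_distrib]
      refine sum_le_sum fun i hi => ?_
      have hwi := hw0 i hi
      by_cases h0 : hasLev 0 (t i)
      · obtain ⟨m, -, hm⟩ := h0
        rcases Nat.lt_or_ge m n with h3 | h3
        · have h4 : lowLev n (t i) := ⟨m, h3, hm⟩
          rw [if_pos h4]
          have : 0 ≤ (if hasLev n (t i) then w i else 0) := by split_ifs <;> linarith
          have : 0 ≤ w i * (if hasLev 0 (t i) then 0 else 1) := by split_ifs <;> simp [hwi.le]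
          linarith
        · have h4 : hasLev n (t i) := ⟨m, h3, hm⟩
          rw [if_pos h4]
          have : 0 ≤ (if lowLev n (t i) then w i else 0) := by split_ifs <;> linarith
          have : 0 ≤ w i * (if hasLev 0 (t i) then 0 else 1) := by split_ifs <;> simp [hwi.le]
          linarith
      · have : 0 ≤ (if lowLev n (t i) then w i else 0) := by split_ifs <;> linarith
        have : 0 ≤ (if hasLev n (t i) then w i else 0) := by split_ifs <;> linarith
        rw [if_neg h0]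
        linarith
    rw [sum_filter]
    linarith
  -- dichotomy
  have hdich : ∀ n, 5 ≤ n → c n < 7 / 8 → c n ≤ 8 / 100 := by
    intro n hn hcn
    obtain ⟨k, rfl⟩ : ∃ k, n = k + 1 := ⟨n - 1, by omega⟩
    set n := k + 1 with hnk
    have hM : (0 : ℝ) < 2 ^ (n ^ 2) := by positivity
    set S := (range (2 ^ (n ^ 2))).filter fun Q => ∀ i, i < N → hasLev n (t i) → ⌊t i * 2 ^ (n ^ 2)⌋₊ ≠ Q with hS
    have h1 := h.card_cells n
    rw [← hS] at h1
    have h2 := h.card_low k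
    rw [← hnk] at h2
    have h2' : (((range N).filter fun i => lowLev n (t i)).card : ℝ) ≤ 2 * (2 ^ (k ^ 2 + 1) + 1) := by
      exact_mod_cast h2
    have h3 := hlow n
    have h4 : (4 : ℝ) * (2 ^ (k ^ 2 + 1) + 1) ≤ 2 ^ (n ^ 2) / 32 := by
      have e : n ^ 2 = (k ^ 2 + 4) + 5 + (2 * k - 8) := by
        have : 8 ≤ 2 * k := by omega
        have : n ^ 2 = k ^ 2 + 2 * k + 1 := by rw [hnk]; ring
        omega
      have h5 : (2 : ℝ) ^ (n ^ 2) ≥ 2 ^ (k ^ 2 + 4) * 32 := by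
        rw [e, pow_add, pow_add]
        have : (1 : ℝ) ≤ 2 ^ (2 * k - 8) := one_le_pow₀ (by norm_num)
        have h6 : (0 : ℝ) < 2 ^ (k ^ 2 + 4) := by positivity
        nlinarith
      have h7 : (2 : ℝ) ^ (k ^ 2 + 4) = 8 * 2 ^ (k ^ 2 + 1) := by
        rw [show k ^ 2 + 4 = (k ^ 2 + 1) + 3 by ring, pow_add]; ring
      have h8 : (1 : ℝ) ≤ 2 ^ (k ^ 2 + 1) := one_le_pow₀ (by norm_num)
      linarith
    have h5 : (1 / 16 : ℝ) * 2 ^ (n ^ 2) ≤ S.card := by
      have h6 : (2 : ℝ) ^ (n ^ 2) * (∑ i ∈ (range N).filter fun i => lowLev n (t i), w i) ≥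
          2 ^ (n ^ 2) * (1 - 7 / 8 - 1 / 200) := by
        refine mul_le_mul_of_nonneg_left ?_ hM.le
        linarith
      simp only [hw] at h6
      linarith
    have h6 := ht n S (filter_subset _ _)
    have h7 : ∑ i ∈ range N, w i * (if hasLev n (t i) then
        ((if ⌊t i * 2 ^ (n ^ 2)⌋₊ ∈ S then 1 else 0) - (S.card : ℝ) / 2 ^ (n ^ 2)) else 0) =
        -((S.card : ℝ) / 2 ^ (n ^ 2)) * c n := by
      rw [hc, mul_sum]
      refine sum_congr rfl fun i hi => ?_
      by_cases h8 : hasLev n (t i)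
      · rw [if_pos h8, if_pos h8]
        have h9 : ⌊t i * 2 ^ (n ^ 2)⌋₊ ∉ S := by
          intro hmem
          exact (mem_filter.mp hmem).2 i (mem_range.mp hi) h8 rfl
        rw [if_neg h9]; ring
      · rw [if_neg h8, if_neg h8]; ring
    rw [h7] at h6
    have hc0 : 0 ≤ c n := sum_nonneg fun i hi => by
      have := hw0 i hi
      split_ifs <;> linarith
    have h8 : (1 / 16 : ℝ) ≤ (S.card : ℝ) / 2 ^ (n ^ 2) := by
      rw [le_div_iff₀ hM]; exact h5
    have h9 := (abs_le.mp h6).1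
    nlinarith
  -- starting value
  have hstart : 7 / 8 ≤ c 5 := by
    have h1 := hlow 5
    have h2 := h.card_low 4
    have h2' : (((range N).filter fun i => lowLev 5 (t i)).card : ℝ) ≤ 2 * (2 ^ (4 ^ 2 + 1) + 1) := by
      exact_mod_cast h2
    have h3 : (∑ i ∈ (range N).filter fun i => lowLev 5 (t i), w i) ≤
        (((range N).filter fun i => lowLev 5 (t i)).card : ℝ) * (1 / 2 ^ 24) := by
      rw [← nsmul_eq_mul]
      refine sum_le_card_nsmul _ _ _ fun i hi => (hmesh i (mem_range.mp (mem_filter.mp hi).1)).le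
    generalize (((range N).filter fun i => lowLev 5 (t i)).card : ℝ) = K at h2' h3
    have h4 : K * (1 / 2 ^ 24) ≤ 2 * (2 ^ (4 ^ 2 + 1) + 1) * (1 / 2 ^ 24) := by gcongr
    have h5 : (2 * (2 ^ (4 ^ 2 + 1) + 1) * (1 / 2 ^ 24) : ℝ) ≤ 1 / 32 := by norm_num
    linarith
  -- eventually zero
  have hend : ∃ L, c L < 7 / 8 := by
    have hb : ∀ i, ∃ B, ∀ m, isD m (t i) → m < B := by
      intro i
      by_cases h1 : ∃ m, isD m (t i)
      · obtain ⟨m, hm⟩ := h1
        exact ⟨m + 1, fun m' hm' => by rw [isD_unique hm' hm]; omega⟩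
      · exact ⟨0, fun m hm => absurd ⟨m, hm⟩ h1⟩
    choose B hB using hb
    refine ⟨(range N).sup B, ?_⟩
    have : c ((range N).sup B) = 0 := by
      refine sum_eq_zero fun i hi => ?_
      rw [if_neg]
      rintro ⟨m, hm, hD⟩
      have h1 := hB i m hD
      have h2 : B i ≤ (range N).sup B := le_sup hi
      omega
    rw [this]; norm_num
  -- monotone
  have hmono : ∀ n n', n ≤ n' → c n' ≤ c n := by
    intro n n' hnn
    refine sum_le_sum fun i hi => ?_
    have := hw0 i hi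
    by_cases h1 : hasLev n' (t i)
    · obtain ⟨m, hm, hD⟩ := h1
      rw [if_pos ⟨m, hm, hD⟩, if_pos ⟨m, hnn.trans hm, hD⟩]
    · rw [if_neg h1]; split_ifs <;> linarith
  classical
  set L := Nat.find hend with hL
  have hL1 : c L < 7 / 8 := Nat.find_spec hend
  have hL2 : ∀ m, m < L → 7 / 8 ≤ c m := fun m hm => not_lt.mp (Nat.find_min hend hm)
  have hL5 : 5 < L := by
    by_contra hcon
    push Not at hcon
    have := hmono L 5 hcon
    linarith
  obtain ⟨k, hk⟩ : ∃ k, L = k + 1 := ⟨L - 1, by omega⟩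
  have hk1 : 7 / 8 ≤ c k := hL2 k (by omega)
  have hk2 : c (k + 1) ≤ 8 / 100 := by rw [← hk]; exact hdich L hL5.le hL1
  set d : ℝ := ∑ i ∈ range N, if isD k (t i) then w i else 0 with hd
  have hd1 : c k ≤ d + c (k + 1) := by
    rw [hc, hd, ← sum_add_distrib]
    refine sum_le_sum fun i hi => ?_
    have hwi := hw0 i hi
    by_cases h1 : hasLev k (t i)
    · obtain ⟨m, hm, hD⟩ := h1
      rw [if_pos ⟨m, hm, hD⟩]
      rcases Nat.eq_or_lt_of_le hm with h2 | h2
      · rw [← h2] at hD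
        rw [if_pos hD]
        have : 0 ≤ (if hasLev (k + 1) (t i) then w i else 0) := by split_ifs <;> linarith
        linarith
      · have h3 : hasLev (k + 1) (t i) := ⟨m, h2, hD⟩
        rw [if_pos h3]
        have : 0 ≤ (if isD k (t i) then w i else 0) := by split_ifs <;> linarith
        linarith
    · rw [if_neg h1]
      have : 0 ≤ (if hasLev (k + 1) (t i) then w i else 0) := by split_ifs <;> linarith
      have : 0 ≤ (if isD k (t i) then w i else 0) := by split_ifs <;> linarith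
      linarith
  have hd2 : 79 / 100 ≤ d := by linarith
  have hu' := abs_le.mp hu
  rcases Nat.even_or_odd k with hev | hodd
  · have h1 : d ≤ ∑ i ∈ range N, w i * (if ∃ m, Even m ∧ isD m (t i) then 1 else 0) := by
      refine sum_le_sum fun i hi => ?_
      have hwi := hw0 i hi
      by_cases h2 : isD k (t i)
      · rw [if_pos h2, if_pos ⟨k, hev, h2⟩, mul_one]
      · rw [if_neg h2]; split_ifs <;> simp [hwi.le]
    linarith [hu'.2]
  · have h1 : d + ∑ i ∈ range N, w i * (if ∃ m, Even m ∧ isD m (t i) then 1 else 0) ≤ ∑ i ∈ range N, w i := by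
      rw [hd, ← sum_add_distrib]
      refine sum_le_sum fun i hi => ?_
      have hwi := hw0 i hi
      by_cases h2 : isD k (t i)
      · have h3 : ¬ ∃ m, Even m ∧ isD m (t i) := by
          rintro ⟨m, hm, hD⟩
          rw [isD_unique hD h2] at hm
          exact (Nat.not_even_iff_odd.mpr hodd) hm
        rw [if_pos h2, if_neg h3]; linarith
      · rw [if_neg h2]; split_ifs <;> linarith
    have h2 : ∑ i ∈ range N, w i = 1 := h.sum_one
    linarith [hu'.1]

end Pool.Agent.Df9bac
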