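import Pool.Agent.Df9bac.Core

set_option autoImplicit false

open Finset Filter Topology
open scoped Classical

namespace Pool.Agent.Df9bac

/-- coordinates -/
abbrev Om := Option (Option (ℕ × Finset ℕ))

/-- coordinate values -/
noncomputable def val (t : ℝ) : Om → ℝ
  | none => if ∃ m, Even m ∧ isD m t then 1 else 0
  | some none => if hasLev 0 t then 0 else 1
  | some (some p) => if p.2 ⊆ range (2 ^ (p.1 ^ 2)) ∧ hasLev p.1 t then
      ((if ⌊t * 2 ^ (p.1 ^ 2)⌋₊ ∈ p.2 then 1 else 0) - (p.2.card : ℝ) / 2 ^ (p.1 ^ 2)) else 0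

lemma val_support (t : ℝ) : (Function.support (val t)).Finite := by
  by_cases h : ∃ m, isD m t
  · obtain ⟨m, hm⟩ := h
    have hfin : ((({none, some none} : Finset Om) ∪
        ((range (m + 1)).sigma fun n => (range (2 ^ (n ^ 2))).powerset).image
          fun q => some (some (q.1, q.2)) : Finset Om) : Set Om).Finite := Finset.finite_toSet _
    refine hfin.subset ?_
    intro c hc
    rw [Function.mem_support] at hc
    rw [mem_coe, mem_union]
    rcases c with _ | _ | ⟨n, S⟩
    · left; simp
    · left; simp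
    · right
      simp only [val] at hc
      by_cases h1 : S ⊆ range (2 ^ (n ^ 2)) ∧ hasLev n t
      · obtain ⟨h2, m', h3, h4⟩ := h1
        rw [mem_image]
        refine ⟨⟨n, S⟩, ?_, rfl⟩
        have := isD_unique hm h4
        exact mem_sigma.mpr ⟨mem_range.mpr (show n < m + 1 by omega), mem_powerset.mpr h2⟩
      · rw [if_neg h1] at hc
        exact absurd rfl hc
  · refine (Set.finite_singleton (some none : Om)).subset ?_
    intro c hc
    rw [Function.mem_support] at hc
    rcases c with _ | _ | ⟨n, S⟩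
    · exfalso; apply hc
      simp only [val]
      rw [if_neg]
      rintro ⟨m, -, hm⟩; exact h ⟨m, hm⟩
    · simp
    · exfalso; apply hc
      simp only [val]
      rw [if_neg]
      rintro ⟨-, m, -, hm⟩; exact h ⟨m, hm⟩

lemma val_bound (t : ℝ) (c : Om) : |val t c| ≤ 1 := by
  rcases c with _ | _ | ⟨n, S⟩
  · simp only [val]; split_ifs <;> simp
  · simp only [val]; split_ifs <;> simp
  · simp only [val]
    by_cases h : S ⊆ range (2 ^ (n ^ 2)) ∧ hasLev n t
    · rw [if_pos h]
      have h1 : (S.card : ℝ) ≤ 2 ^ (n ^ 2) := by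
        have := card_le_card h.1
        rw [card_range] at this
        exact_mod_cast this
      have h2 : (S.card : ℝ) / 2 ^ (n ^ 2) ≤ 1 := by
        rw [div_le_one (by positivity)]; exact h1
      have h3 : 0 ≤ (S.card : ℝ) / 2 ^ (n ^ 2) := by positivity
      rw [abs_le]
      constructor <;> split_ifs <;> linarith
    · rw [if_neg h]; simp

/-- elements of `c₀` from finitely supported coordinate functions -/
noncomputable def mk (g : Om → ℝ) (hg : (Function.support g).Finite) : ZeroAtInftyContinuousMap ℕ ℝ where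
  toFun q := (Encodable.decode₂ Om q).elim 0 g
  continuous_toFun := continuous_of_discreteTopology
  zero_at_infty' := by
    rw [Filter.cocompact_eq_cofinite]
    refine tendsto_const_nhds.congr' ?_
    have hfin : (Encodable.encode '' (Function.support g)).Finite := hg.image _
    have : ∀ᶠ q in cofinite, q ∉ Encodable.encode '' (Function.support g) := hfin.compl_mem_cofinite
    filter_upwards [this] with q hq
    cases hd : Encodable.decode₂ Om q with
    | none => rfl
    | some c =>
      have h1 : Encodable.encode c = q := Encodable.mem_decode₂.mp hd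
      by_contra hne
      exact hq ⟨c, fun h0 => hne (by simp [h0]), h1⟩

lemma mk_encode (g : Om → ℝ) (hg : (Function.support g).Finite) (c : Om) :
    mk g hg (Encodable.encode c) = g c := by
  show (Encodable.decode₂ Om (Encodable.encode c)).elim 0 g = g c
  rw [Encodable.encodek₂]
  rfl

lemma ext_encode (a b : ZeroAtInftyContinuousMap ℕ ℝ)
    (ha : ∀ q, Encodable.decode₂ Om q = none → a q = 0) (hb : ∀ q, Encodable.decode₂ Om q = none → b q = 0)
    (h : ∀ c : Om, a (Encodable.encode c) = b (Encodable.encode c)) : a = b := by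
  ext q
  cases hd : Encodable.decode₂ Om q with
  | none => rw [ha q hd, hb q hd]
  | some c =>
    have h1 : Encodable.encode c = q := Encodable.mem_decode₂.mp hd
    rw [← h1]; exact h c

/-- the function -/
noncomputable def ff (t : ℝ) : ZeroAtInftyContinuousMap ℕ ℝ := mk (val t) (val_support t)

lemma abs_le_norm (a : ZeroAtInftyContinuousMap ℕ ℝ) (q : ℕ) : |a q| ≤ ‖a‖ := by
  have := a.toBCF.norm_coe_le_norm q
  rwa [ZeroAtInftyContinuousMap.norm_toBCF_eq_norm] at this

lemma ff_bound (t : ℝ) : ‖ff t‖ ≤ 1 := by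
  rw [← ZeroAtInftyContinuousMap.norm_toBCF_eq_norm]
  rw [BoundedContinuousFunction.norm_le zero_le_one]
  intro q
  show |(Encodable.decode₂ Om q).elim 0 (val t)| ≤ 1
  cases Encodable.decode₂ Om q with
  | none => simp
  | some c => exact val_bound t c

lemma sum_eval (s : Finset ℕ) (w : ℕ → ℝ) (g : ℕ → ZeroAtInftyContinuousMap ℕ ℝ) (q : ℕ) :
    (∑ i ∈ s, w i • g i) q = ∑ i ∈ s, w i * g i q := by
  induction s using Finset.induction_on with
  | empty => simp
  | insert a s ha ih =>
    rw [sum_insert ha, sum_insert ha, ZeroAtInftyContinuousMap.add_apply, ih,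
      ZeroAtInftyContinuousMap.smul_apply, smul_eq_mul]

/-- the first unit vector -/
noncomputable def V1 : ZeroAtInftyContinuousMap ℕ ℝ :=
  mk (fun c => if c = none then 1 else 0) ((Set.finite_singleton (none : Om)).subset fun c hc => by
    rw [Function.mem_support] at hc
    by_contra h
    exact hc (if_neg h))

lemma sum_div (F : ℕ → ℝ) (r : ℕ) (hr : 0 < r) (A : ℕ) :
    ∑ i ∈ range (A * r), F (i / r) = r * ∑ Q ∈ range A, F Q := by
  induction A with
  | zero => simp
  | succ A ih =>
    rw [Nat.succ_mul, sum_range_add, ih, sum_range_succ, mul_add]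
    congr 1
    have : ∀ i ∈ range r, F ((A * r + i) / r) = F A := by
      intro i hi
      rw [mem_range] at hi
      congr 1
      rw [mul_comm, Nat.mul_add_div hr, Nat.div_eq_of_lt hi, add_zero]
    rw [sum_congr rfl this, sum_const, card_range, nsmul_eq_mul]

/-- points and tags of the level `m` partition -/
noncomputable def px (m i : ℕ) : ℝ := i / 2 ^ (m ^ 2)
/-- tags -/
noncomputable def pt (m i : ℕ) : ℝ := (2 * i + 1) / 2 ^ (m ^ 2 + 1)

lemma isD_pt (m i : ℕ) : isD m (pt m i) := ⟨i, rfl⟩

lemma px_diff (m i : ℕ) : px m (i + 1) - px m i = 1 / 2 ^ (m ^ 2) := by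
  unfold px; push_cast; ring

lemma floor_pt (m n i : ℕ) (d : ℕ) (hd : m ^ 2 = n ^ 2 + d) : ⌊pt m i * 2 ^ (n ^ 2)⌋₊ = i / 2 ^ d := by
  have e : pt m i * 2 ^ (n ^ 2) = ((2 * i + 1 : ℕ) : ℝ) / ((2 * 2 ^ d : ℕ) : ℝ) := by
    unfold pt
    rw [hd, show n ^ 2 + d + 1 = n ^ 2 + (d + 1) by ring, pow_add, pow_succ]
    push_cast
    field_simp
    ring
  rw [e, Nat.floor_div_eq_div, ← Nat.div_div_eq_div_mul]
  congr 1
  omega

lemma S_eval (m : ℕ) (c : Om) :
    ∑ i ∈ range (2 ^ (m ^ 2)), (px m (i + 1) - px m i) * val (pt m i) c =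
      if Even m ∧ c = none then 1 else 0 := by
  have hM : (0 : ℝ) < 2 ^ (m ^ 2) := by positivity
  have hh : ∀ i n, hasLev n (pt m i) ↔ n ≤ m := by
    intro i n
    constructor
    · rintro ⟨m', hm', hD⟩
      rw [isD_unique (isD_pt m i) hD]; exact hm'
    · intro hn; exact ⟨m, hn, isD_pt m i⟩
  rcases c with _ | _ | ⟨n, S⟩
  · have h1 : ∀ i, (∃ m', Even m' ∧ isD m' (pt m i)) ↔ Even m := by
      intro i
      constructor
      · rintro ⟨m', hm', hD⟩
        rw [isD_unique (isD_pt m i) hD]; exact hm'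
      · intro hn; exact ⟨m, hn, isD_pt m i⟩
    simp only [val, h1, px_diff]
    by_cases he : Even m
    · simp only [he, if_true, true_and]
      rw [sum_const, card_range, nsmul_eq_mul]
      push_cast
      field_simp
    · simp [he]
  · simp only [val, (hh _ 0).mpr (Nat.zero_le m), if_true, mul_zero, sum_const_zero]
    simp
  · rw [if_neg (by simp)]
    by_cases hS : S ⊆ range (2 ^ (n ^ 2)) ∧ n ≤ m
    · obtain ⟨hS1, hn⟩ := hS
      have hsq : n ^ 2 ≤ m ^ 2 := Nat.pow_le_pow_left hn 2
      obtain ⟨d, hd⟩ : ∃ d, m ^ 2 = n ^ 2 + d := ⟨m ^ 2 - n ^ 2, by omega⟩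
      have h2 : ∀ i, val (pt m i) (some (some (n, S))) =
          (if i / 2 ^ d ∈ S then (1 : ℝ) else 0) - (S.card : ℝ) / 2 ^ (n ^ 2) := by
        intro i
        simp only [val]
        rw [if_pos ⟨hS1, (hh i n).mpr hn⟩, floor_pt m n i d hd]
      simp only [h2, px_diff]
      rw [← mul_sum, sum_sub_distrib, sum_const, card_range, nsmul_eq_mul]
      have e1 : 2 ^ (m ^ 2) = 2 ^ (n ^ 2) * 2 ^ d := by rw [hd, pow_add]
      have h3 : ∑ i ∈ range (2 ^ (m ^ 2)), (if i / 2 ^ d ∈ S then (1 : ℝ) else 0) = 2 ^ d * S.card := by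
        rw [e1, sum_div (fun q => if q ∈ S then (1 : ℝ) else 0) (2 ^ d) (by positivity) (2 ^ (n ^ 2)),
          sum_ite_mem, inter_eq_right.mpr hS1, sum_const, nsmul_eq_mul]
        push_cast
        ring
      rw [h3]
      have e2 : ((2 ^ (m ^ 2) : ℕ) : ℝ) = 2 ^ (n ^ 2) * 2 ^ d := by rw [e1]; push_cast; ring
      rw [e2]
      field_simp
      ring
    · have h2 : ∀ i, val (pt m i) (some (some (n, S))) = 0 := by
        intro i
        simp only [val]
        rw [if_neg]
        rw [hh]
        exact hS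
      simp only [h2, mul_zero, sum_const_zero]

lemma none_zero {g : Om → ℝ} {hg : (Function.support g).Finite} (q : ℕ)
    (hq : Encodable.decode₂ Om q = none) : mk g hg q = 0 := by
  show (Encodable.decode₂ Om q).elim 0 g = 0
  rw [hq]; rfl

lemma S_vec (m : ℕ) : ∑ i ∈ range (2 ^ (m ^ 2)), (px m (i + 1) - px m i) • ff (pt m i) =
    if Even m then V1 else 0 := by
  apply ext_encode
  · intro q hq
    rw [sum_eval]
    refine sum_eq_zero fun i _ => ?_
    unfold ff
    rw [none_zero q hq, mul_zero]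
  · intro q hq
    split_ifs
    · exact none_zero q hq
    · rfl
  · intro c
    rw [sum_eval]
    have h1 : ∀ i ∈ range (2 ^ (m ^ 2)), (px m (i + 1) - px m i) * ff (pt m i) (Encodable.encode c) =
        (px m (i + 1) - px m i) * val (pt m i) c := by
      intro i _
      unfold ff
      rw [mk_encode]
    rw [sum_congr rfl h1, S_eval]
    by_cases he : Even m
    · simp only [he, true_and, if_true, V1, mk_encode]
    · simp [he]

/-- the set of limits of Riemann sums, in the form of the frozen statement -/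
def II (f : ℝ → ZeroAtInftyContinuousMap ℕ ℝ) : Set (ZeroAtInftyContinuousMap ℕ ℝ) :=
  {v : ZeroAtInftyContinuousMap ℕ ℝ |
        ∃ (n : ℕ → ℕ) (x t : ℕ → ℕ → ℝ),
          (∀ k, x k 0 = 0 ∧ x k (n k) = 1 ∧
            (∀ i, i < n k → x k i < x k (i+1)) ∧
            (∀ i, i < n k → x k i ≤ t k i ∧ t k i ≤ x k (i+1))) ∧
          (∀ ε : ℝ, 0 < ε → ∃ K : ℕ, ∀ k, K ≤ k → ∀ i, i < n k → x k (i+1) - x k i < ε) ∧
          Filter.Tendsto
            (fun k => ∑ i ∈ Finset.range (n k), (x k (i+1) - x k i) • f (t k i))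
            Filter.atTop (nhds v)}

lemma mem_II (μ : ℕ → ℕ) (hμ : ∀ k, k ≤ μ k) (v : ZeroAtInftyContinuousMap ℕ ℝ)
    (hv : ∀ k, (if Even (μ k) then V1 else 0) = v) : v ∈ II ff := by
  refine ⟨fun k => 2 ^ ((μ k) ^ 2), fun k => px (μ k), fun k => pt (μ k), ?_, ?_, ?_⟩
  · intro k
    refine ⟨by simp [px], ?_, ?_, ?_⟩
    · simp only [px]
      push_cast
      exact div_self (by positivity)
    · intro i _
      have := px_diff (μ k) i
      have h2 : (0 : ℝ) < 1 / 2 ^ ((μ k) ^ 2) := by positivity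
      linarith
    · intro i _
      have e : pt (μ k) i = (i + 1 / 2) / 2 ^ ((μ k) ^ 2) := by
        unfold pt; rw [pow_succ]; field_simp
      show px (μ k) i ≤ pt (μ k) i ∧ pt (μ k) i ≤ px (μ k) (i + 1)
      rw [e]
      unfold px
      push_cast
      constructor
      · gcongr; linarith
      · gcongr; linarith
  · intro ε hε
    obtain ⟨K, hK⟩ := exists_pow_lt_of_lt_one hε (show (1 / 2 : ℝ) < 1 by norm_num)
    refine ⟨K, fun k hk i _ => ?_⟩
    rw [px_diff]
    have h1 : K ≤ (μ k) ^ 2 := by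
      have := hμ k
      nlinarith [hk.trans this, Nat.le_self_pow (show 2 ≠ 0 by norm_num) (μ k)]
    calc (1 : ℝ) / 2 ^ ((μ k) ^ 2) ≤ 1 / 2 ^ K := by
          apply one_div_le_one_div_of_le (by positivity)
          exact pow_le_pow_right₀ (by norm_num) h1
      _ = (1 / 2) ^ K := by rw [one_div_pow]
      _ < ε := hK
  · have : (fun k => ∑ i ∈ Finset.range (2 ^ ((μ k) ^ 2)), (px (μ k) (i + 1) - px (μ k) i) • ff (pt (μ k) i)) =
        fun _ => v := by
      funext k
      rw [S_vec, hv]
    rw [this]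
    exact tendsto_const_nhds

theorem not_convex : ¬ Convex ℝ (II ff) := by
  intro hconv
  have h0 : (0 : ZeroAtInftyContinuousMap ℕ ℝ) ∈ II ff :=
    mem_II (fun k => 2 * k + 1) (fun k => by omega) 0 (fun k => by
      rw [if_neg]; exact Nat.not_even_iff_odd.mpr ⟨k, rfl⟩)
  have h1 : V1 ∈ II ff := mem_II (fun k => 2 * k) (fun k => by omega) V1 (fun k => by
      rw [if_pos]; exact even_two_mul k)
  have hmid := hconv h0 h1 (show (0 : ℝ) ≤ 1 / 2 by norm_num) (show (0 : ℝ) ≤ 1 / 2 by norm_num) (by norm_num)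
  rw [smul_zero, zero_add] at hmid
  obtain ⟨n, x, t, hP, hmesh, hlim⟩ := hmid
  obtain ⟨K1, hK1⟩ := hmesh (1 / 2 ^ 24) (by positivity)
  have hev := Metric.tendsto_atTop.mp hlim (1 / 200) (by norm_num)
  obtain ⟨K2, hK2⟩ := hev
  set k := max K1 K2 with hk
  obtain ⟨p0, p1, p2, p3⟩ := hP k
  have hTP : TP (n k) (x k) (t k) := ⟨p0, p1, p2, p3⟩
  have hd := hK2 k (le_max_right _ _)
  rw [dist_eq_norm] at hd
  have hcoord : ∀ c : Om, |∑ i ∈ range (n k), (x k (i + 1) - x k i) * val (t k i) c -
      1 / 2 * (if c = none then 1 else 0)| ≤ 1 / 200 := by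
    intro c
    have h2 := (abs_le_norm _ (Encodable.encode c)).trans hd.le
    rw [ZeroAtInftyContinuousMap.sub_apply, sum_eval, ZeroAtInftyContinuousMap.smul_apply, smul_eq_mul] at h2
    simp only [ff, V1, mk_encode] at h2
    exact h2
  refine hTP.core (hK1 k (le_max_left _ _)) ?_ ?_ ?_
  · have := hcoord (some none)
    simp only [val, reduceCtorEq, if_false, mul_zero, sub_zero] at this
    exact (le_abs_self _).trans this
  · have := hcoord none
    simp only [val, if_true, mul_one] at this
    exact this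
  · intro m S hS
    have := hcoord (some (some (m, S)))
    simp only [val, reduceCtorEq, if_false, mul_zero, sub_zero, hS, true_and] at this
    exact this

end Pool.Agent.Df9bac
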